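import Pool.Agent.H96EX.Res

/-!
# MP_363d4d_nt: exponential maps near the true one with prescribed values of `π` and `e`

Every pair `(p, τ)` of transcendental real numbers close enough to `(π, e)` is the pair `(π, e)` of an exponential
map `E` of the field of complex numbers which is as close as we like to the true exponential map on a given finite
set: a homomorphism from the additive group onto the multiplicative group, with kernel exactly `2 p i ℤ`, with the
usual roots of unity, commuting with complex conjugation, with `E 1 = τ`. The map `E` satisfies Zilber's axiom of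
strong exponential-algebraic closedness. It satisfies Schanuel's conjecture when `p` and `τ` are algebraically
independent, and in the other case it satisfies all instances of Schanuel's conjecture, except that the bound `n` is
replaced by `n - 1` when both `1` and `2 p i` lie in the rational span of the given numbers.

For `p = π` and `τ = r - π` or `τ = π - r`, with `r` rational, one has `π + E 1 = r`, resp. `π - E 1 = r`. For `τ = e`
and `p + s e` algebraic, where `s ≠ 0` is a given algebraic number, the map `E` can be taken equal to the true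
exponential map at every algebraic number.

The proof contains a proof of the full Lindemann-Weierstrass theorem (`Pool.Agent.Helper77.LW`).
Authors: helper77 (Lindemann-Weierstrass, closeness to the true map, algebraic numbers), helper96 (construction on
the complex numbers, closedness), helper90 (general pairs).
-/

open Set Complex Cardinal

namespace Pool.Agent.Results.MP_363d4d_nt.ExpLimit

/-- The field generated over the rationals by the numbers `z i` and their images `w i`. -/
noncomputable abbrev Gen {n : ℕ} (z w : Fin n → ℂ) : IntermediateField ℚ ℂ :=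
  IntermediateField.adjoin ℚ (Set.range z ∪ Set.range w)

/-- There is no additive relation between the numbers `a j` and no multiplicative relation between the numbers
`b j`, up to numbers algebraic over the field generated by `C`: the sums `∑ m j * a j` and the products
`∏ b j ^ m j` with integers `m j`, not all zero, are transcendental over that field. -/
def Free (C : Set ℂ) {n : ℕ} (a b : Fin n → ℂ) : Prop :=
  ∀ m : Fin n → ℤ, m ≠ 0 →
    Transcendental (IntermediateField.adjoin ℚ C) (∑ j, (m j : ℂ) * a j) ∧
    Transcendental (IntermediateField.adjoin ℚ C) (∏ j, b j ^ m j)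

/-- For each `r` and each integer matrix `M` with `r` linearly independent rows, the `2 r` numbers `∑ M i j * a j`
and `∏ b j ^ M i j` generate a field of transcendence degree at least `r` over the field generated by `C`. -/
def Rotund (C : Set ℂ) {n : ℕ} (a b : Fin n → ℂ) : Prop :=
  ∀ (r : ℕ) (M : Fin r → Fin n → ℤ), LinearIndependent ℤ M →
    (r : Cardinal.{0}) ≤ Algebra.trdeg (IntermediateField.adjoin ℚ C)
      (IntermediateField.adjoin (IntermediateField.adjoin ℚ C)
        (Set.range (fun i => ∑ j, (M i j : ℂ) * a j) ∪ Set.range (fun i => ∏ j, b j ^ M i j)))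

/-- `E` is an exponential map of the field of complex numbers with the real number `p` in the place of `π`. -/
structure ZilberExp (p : ℝ) (E : ℂ → ℂ) : Prop where
  /-- `E` is a homomorphism from the additive group to the multiplicative group -/
  add : ∀ z w : ℂ, E (z + w) = E z * E w
  /-- every nonzero number is a value -/
  onto : ∀ y : ℂ, y ≠ 0 → ∃ z : ℂ, E z = y
  /-- the kernel is `2 p i ℤ` -/
  kernel : ∀ z : ℂ, E z = 1 ↔ ∃ k : ℤ, z = k * (2 * p * Complex.I)
  /-- the usual roots of unity -/
  torsion : ∀ q : ℚ, E (q * (2 * p * Complex.I)) = Complex.exp (2 * Real.pi * Complex.I * q)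
  /-- `E` commutes with complex conjugation -/
  conj : ∀ z : ℂ, E (starRingEnd ℂ z) = starRingEnd ℂ (E z)
  /-- the bound `n - 1` in place of Schanuel's bound `n` -/
  schanuel_pred : ∀ (n : ℕ) (z : Fin n → ℂ), LinearIndependent ℚ z →
    (n : Cardinal.{0}) ≤ Algebra.trdeg ℚ (Gen z (fun i => E (z i))) + 1
  /-- Schanuel's bound `n`, unless `p` and `E 1` are algebraically dependent and `1` and `2 p i` are in the span -/
  schanuel : ∀ (n : ℕ) (z : Fin n → ℂ), LinearIndependent ℚ z →
    (¬ ((1 : ℂ) ∈ Submodule.span ℚ (Set.range z) ∧
        (2 * p * Complex.I : ℂ) ∈ Submodule.span ℚ (Set.range z)) ∨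
      AlgebraicIndependent ℚ ![(p : ℂ), E 1]) →
    (n : Cardinal.{0}) ≤ Algebra.trdeg ℚ (Gen z (fun i => E (z i)))
  /-- strong exponential-algebraic closedness: a free and rotund point `(a, b)` over the field generated by a finite
  set `C` has the same algebraic relations over that field as a point `(z, E z)` of the graph of `E` -/
  closed : ∀ (C : Finset ℂ) (n : ℕ) (a b : Fin n → ℂ), (∀ j, b j ≠ 0) → Free (C : Set ℂ) a b →
    Rotund (C : Set ℂ) a b → ∃ z : Fin n → ℂ,
      ∀ P : MvPolynomial (Fin n ⊕ Fin n) (IntermediateField.adjoin ℚ (C : Set ℂ)),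
        MvPolynomial.aeval (Sum.elim a b) P = 0 ↔
        MvPolynomial.aeval (Sum.elim z (fun j => E (z j))) P = 0

theorem result (s : ℝ) (hs : IsAlgebraic ℚ s) (hs0 : s ≠ 0) (F : Finset ℂ) (ε : ℝ) (hε : 0 < ε) :
    ∃ δ > 0, ∀ p τ : ℝ, Transcendental ℚ p → Transcendental ℚ τ →
      |p - Real.pi| < δ → |τ - Real.exp 1| < δ →
        ∃ E : ℂ → ℂ, ZilberExp p E ∧ E 1 = τ ∧
          (τ = Real.exp 1 → IsAlgebraic ℚ (p + s * τ) →
            ∀ a : ℂ, IsAlgebraic ℚ a → E a = Complex.exp a) ∧
          ∀ z ∈ F, ‖E z - Complex.exp z‖ < ε := by
  obtain ⟨δ, hδ, h⟩ := Pool.Agent.H96EX.main s hs hs0 F ε hε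
  refine ⟨δ, hδ, fun p τ hp hτ hpd hτd => ?_⟩
  obtain ⟨E, hE, h1, h2, h3⟩ := h p τ hp hτ hpd hτd
  exact ⟨E, ⟨hE.add, hE.onto, hE.kernel, hE.torsion, hE.conj, hE.schanuel_pred, hE.schanuel,
    fun C n a b hb hf hr => hE.closed C n a b hb hf hr⟩, h1, h2, h3⟩

end Pool.Agent.Results.MP_363d4d_nt.ExpLimit
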