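import Pool.Agent.Helper65.PE.Crit

/-!
# MP_363d4d_nt: a criterion for the irrationality of `π + e` and of `π - e`

`Q n` = `1, 1, 7, 71, 1001, …` are the denominators of Hermite's approximations to `e`; `g n` is a sequence of
multipliers, for example `n!` or the least common multiple of `1, …, n`; `sd x` is the signed distance of `x` to the
nearest integer, and `sq g α n = (-1) ^ n (2 n + 1)! / (n! g n) sd (g n Q n α)`.

If `α = x e + y` with rational numbers `x`, `y`, then `sq g α n` converges to `x √e`; and a real number `α` is not of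
this form if and only if `|sd (g n Q n α)| > 1 / (5 (n + 1) (n + 2))` for infinitely many `n`. Hence `π + e` is
rational if and only if `sq g π n` converges to `-√e`, and `π - e` is rational if and only if it converges to `√e`.
If the multipliers grow at most exponentially then both numbers are irrational as soon as
`|sd (N n π)| > N n ^ (δ - 1)` for infinitely many of the numbers `N n = g n Q n`.

These are equivalent forms of the two questions; nothing is settled.
-/

open Filter Topology
open Pool.Agent.Helper65.PE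

namespace Pool.Agent.Results.MP_363d4d_nt.LimitCriterion

theorem exp_half_eq : Real.exp (1 / 2) = √(Real.exp 1) := Real.exp_half 1

variable {g : ℕ → ℕ}

theorem of_tendsto (hg : Mult g) {α L : ℝ} (h : Tendsto (sq g α) atTop (𝓝 L)) :
    ∃ x y : ℚ, α = x * Real.exp 1 + y ∧ x * √(Real.exp 1) = L := by
  have h1 : ∃ x y : ℚ, α = x * Real.exp 1 + y := by
    by_contra hc
    have h2 := unbounded_of_not hg hc (|L| + 1)
    have h3 : ∀ᶠ n in atTop, |sq g α n| < |L| + 1 := h.abs.eventually_lt_const (by linarith)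
    obtain ⟨n, hn1, hn2⟩ := (h2.and_eventually h3).exists
    linarith
  obtain ⟨x, y, hxy⟩ := h1
  refine ⟨x, y, hxy, ?_⟩
  rw [← exp_half_eq]
  exact tendsto_nhds_unique (tendsto_sq hg hxy) h

theorem result (g : ℕ → ℕ) (hg : Mult g) :
    (∀ α : ℝ,
      (∀ x y : ℚ, α = x * Real.exp 1 + y → Tendsto (sq g α) atTop (𝓝 (x * √(Real.exp 1)))) ∧
      ((¬ ∃ x y : ℚ, α = x * Real.exp 1 + y) ↔
        ∃ᶠ n : ℕ in atTop, 1 / (5 * (((n : ℝ) + 1) * (n + 2))) < |sd (g n * Q n * α)|)) ∧
    (¬ Irrational (Real.pi + Real.exp 1) ↔ Tendsto (sq g Real.pi) atTop (𝓝 (-√(Real.exp 1)))) ∧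
    (¬ Irrational (Real.pi - Real.exp 1) ↔ Tendsto (sq g Real.pi) atTop (𝓝 √(Real.exp 1))) ∧
    (∀ C δ : ℝ, 0 < δ → (∀ n, (g n : ℝ) ≤ C ^ (n + 1)) →
      (∃ᶠ n : ℕ in atTop, ((g n : ℝ) * Q n) ^ (δ - 1) < |sd (g n * Q n * Real.pi)|) →
      Irrational (Real.pi + Real.exp 1) ∧ Irrational (Real.pi - Real.exp 1)) := by
  have he : 0 < √(Real.exp 1) := Real.sqrt_pos.2 (Real.exp_pos 1)
  have key : ∀ (x y : ℚ), Real.pi = x * Real.exp 1 + y →
      Tendsto (sq g Real.pi) atTop (𝓝 (x * √(Real.exp 1))) := by
    intro x y h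
    rw [← exp_half_eq]
    exact tendsto_sq hg h
  have hadd : ¬ Irrational (Real.pi + Real.exp 1) ↔
      Tendsto (sq g Real.pi) atTop (𝓝 (-√(Real.exp 1))) := by
    constructor
    · intro h
      rw [Irrational, not_not] at h
      obtain ⟨q, hq⟩ := h
      have h1 := key (-1) q (by push_cast; linarith)
      simpa using h1
    · intro h
      obtain ⟨x, y, hxy, hx⟩ := of_tendsto hg h
      have h1 : (x : ℝ) = -1 := by
        have : ((x : ℝ) + 1) * √(Real.exp 1) = 0 := by linarith
        rcases mul_eq_zero.1 this with h2 | h2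
        · linarith
        · exact absurd h2 he.ne'
      rw [Irrational, not_not]
      exact ⟨y, by rw [hxy, h1]; ring⟩
  have hsub : ¬ Irrational (Real.pi - Real.exp 1) ↔ Tendsto (sq g Real.pi) atTop (𝓝 √(Real.exp 1)) := by
    constructor
    · intro h
      rw [Irrational, not_not] at h
      obtain ⟨q, hq⟩ := h
      have h1 := key 1 q (by push_cast; linarith)
      simpa using h1
    · intro h
      obtain ⟨x, y, hxy, hx⟩ := of_tendsto hg h
      have h1 : (x : ℝ) = 1 := by
        have : ((x : ℝ) - 1) * √(Real.exp 1) = 0 := by linarith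
        rcases mul_eq_zero.1 this with h2 | h2
        · linarith
        · exact absurd h2 he.ne'
      rw [Irrational, not_not]
      exact ⟨y, by rw [hxy, h1]; ring⟩
  refine ⟨fun α => ⟨fun x y h => ?_, not_iff_frequently hg α⟩, hadd, hsub, fun C δ hδ hC h => ?_⟩
  · rw [← exp_half_eq]
    exact tendsto_sq hg h
  · have hunb : ∀ L : ℝ, ¬ Tendsto (sq g Real.pi) atTop (𝓝 L) := by
      intro L hL
      have h3 : ∀ᶠ n in atTop, |sq g Real.pi n| < |L| + 1 := hL.abs.eventually_lt_const (by linarith)
      obtain ⟨n, hn1, hn2⟩ := ((unbounded_of_exponent hg hδ hC h (|L| + 1)).and_eventually h3).exists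
      linarith
    refine ⟨?_, ?_⟩
    · by_contra hc
      exact hunb _ (hadd.1 hc)
    · by_contra hc
      exact hunb _ (hsub.1 hc)

end Pool.Agent.Results.MP_363d4d_nt.LimitCriterion
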