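import Pool.Agent.Helper44.PE.Spectrum

/-!
# MP_363d4d_nt: the limit points of `q (log q / log log q) ‖q π‖`

`order a q = q (log q / log log q) ‖q a‖`, where `‖x‖` is the distance of `x` to the nearest integer. If
`w a = u e + v` with integers `u ≠ 0`, `w > 0` and `v`, then the finite limit points of the sequence `order a` are
exactly the numbers `m ^ 2 / (2 |u| w)` with `m` in a set `M` of positive integers that contains `|u| w` and is closed
under multiplication by positive integers, and the least of them is the limit inferior. In particular, if `d (π + e)`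
or `d (π - e)` is an integer, `d > 0`, then the finite limit points for `a = π` are numbers `(m / d) ^ 2 / 2`, among
them all the numbers `(k d) ^ 2 / 2`.
-/

open Filter Topology
open Pool.Agent.Helper44.PE

namespace Pool.Agent.Results.MP_363d4d_nt.QuantizedOrder

theorem general (a : ℝ) (u v : ℤ) (w : ℕ) (hu : u ≠ 0) (hw : 0 < w)
    (h : (w : ℝ) * a = u * Real.exp 1 + v) :
    ∃ M : Set ℕ, (∀ m ∈ M, 1 ≤ m) ∧ u.natAbs * w ∈ M ∧ (∀ m ∈ M, ∀ k : ℕ, 1 ≤ k → k * m ∈ M) ∧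
      (∀ l : ℝ, MapClusterPt l atTop (order a) ↔ ∃ m ∈ M, l = (m : ℝ) ^ 2 / (2 * (u.natAbs * w))) ∧
      ∃ m ∈ M, (∀ k ∈ M, m ≤ k) ∧ liminf (order a) atTop = (m : ℝ) ^ 2 / (2 * (u.natAbs * w)) := by
  classical
  have hU' : (0 : ℝ) < (u.natAbs : ℝ) := by exact_mod_cast Int.natAbs_pos.2 hu
  have hw' : (0 : ℝ) < w := by exact_mod_cast hw
  have hUw : (0 : ℝ) < (u.natAbs : ℝ) * w := mul_pos hU' hw'
  have hin : u.natAbs * w ∈ Mset u v w := by
    have := mem_Mset_mul (v := v) hu hw (le_refl 1)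
    rwa [one_mul] at this
  refine ⟨Mset u v w, fun m hm => hm.1, hin, fun m hm k hk =>
    ⟨Nat.mul_pos hk hm.1, hm.2.mono fun n hn => adm_mul k hn⟩, cluster_iff hu hw h, ?_⟩
  have hex : ∃ m, m ∈ Mset u v w := ⟨_, hin⟩
  set m := Nat.find hex with hm
  have hmM : m ∈ Mset u v w := Nat.find_spec hex
  have hmin : ∀ k ∈ Mset u v w, m ≤ k := fun k hk => Nat.find_min' hex hk
  refine ⟨m, hmM, hmin, ?_⟩
  set l : ℝ := (m : ℝ) ^ 2 / (2 * (u.natAbs * w)) with hl
  have hcl := cluster_of_mem hu hw h hmM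
  have hfr : ∀ ε : ℝ, 0 < ε → ∃ᶠ q in atTop, order a q ≤ l + ε := by
    intro ε hε
    refine ((mapClusterPt_iff_frequently.1 hcl) (Metric.ball l ε) (Metric.ball_mem_nhds l hε)).mono
      fun q hq => ?_
    rw [Metric.mem_ball, Real.dist_eq] at hq
    linarith [(abs_lt.1 hq).2]
  have hev : ∀ ε : ℝ, 0 < ε → ∀ᶠ q in atTop, l - ε ≤ order a q := by
    intro ε hε
    obtain ⟨K, hK⟩ := order_near hu hw h l
    filter_upwards [hK ε hε] with q hq
    rcases le_or_gt (order a q) l with h1 | h1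
    · obtain ⟨k, hk, -, hk2⟩ := hq h1
      have h2 : (m : ℝ) ≤ k := by exact_mod_cast hmin k hk
      have h3 : l ≤ (k : ℝ) ^ 2 / (2 * (u.natAbs * w)) := by
        rw [hl]
        gcongr
      linarith [(abs_lt.1 hk2).1]
    · linarith
  have hb : IsBoundedUnder (· ≥ ·) atTop (order a) := ⟨l - 1, hev 1 one_pos⟩
  have hcb : IsCoboundedUnder (· ≥ ·) atTop (order a) :=
    IsCoboundedUnder.of_frequently_le (hfr 1 one_pos)
  apply le_antisymm
  · refine le_of_forall_pos_le_add fun ε hε => ?_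
    exact liminf_le_of_frequently_le (hfr ε hε) hb
  · refine le_of_forall_pos_le_add fun ε hε => ?_
    have := le_liminf_of_le hcb (hev ε hε)
    linarith

theorem result :
    (∀ (a : ℝ) (u v : ℤ) (w : ℕ), u ≠ 0 → 0 < w → (w : ℝ) * a = u * Real.exp 1 + v →
      ∃ M : Set ℕ, (∀ m ∈ M, 1 ≤ m) ∧ u.natAbs * w ∈ M ∧ (∀ m ∈ M, ∀ k : ℕ, 1 ≤ k → k * m ∈ M) ∧
        (∀ l : ℝ, MapClusterPt l atTop (order a) ↔ ∃ m ∈ M, l = (m : ℝ) ^ 2 / (2 * (u.natAbs * w))) ∧
        ∃ m ∈ M, (∀ k ∈ M, m ≤ k) ∧ liminf (order a) atTop = (m : ℝ) ^ 2 / (2 * (u.natAbs * w))) ∧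
    (∀ (d : ℕ) (p : ℤ), 0 < d →
      ((d : ℝ) * (Real.pi + Real.exp 1) = p ∨ (d : ℝ) * (Real.pi - Real.exp 1) = p) →
      ∃ M : Set ℕ, (∀ m ∈ M, 1 ≤ m) ∧ d ^ 2 ∈ M ∧ (∀ m ∈ M, ∀ k : ℕ, 1 ≤ k → k * m ∈ M) ∧
        (∀ l : ℝ, MapClusterPt l atTop (order Real.pi) ↔ ∃ m ∈ M, l = ((m : ℝ) / d) ^ 2 / 2) ∧
        ∃ m ∈ M, (∀ k ∈ M, m ≤ k) ∧ liminf (order Real.pi) atTop = ((m : ℝ) / d) ^ 2 / 2) := by
  refine ⟨general, fun d p hd h => ?_⟩
  have hd' : (d : ℝ) ≠ 0 := by exact_mod_cast hd.ne'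
  have e : ∀ m : ℝ, m ^ 2 / (2 * (d : ℝ) ^ 2) = (m / d) ^ 2 / 2 := by
    intro m
    field_simp
  rcases h with h | h
  · have h1 : (d : ℝ) * Real.pi = (-(d : ℤ) : ℤ) * Real.exp 1 + p := by
      push_cast
      linarith
    have h2 := general Real.pi (-(d : ℤ)) p d (by omega) hd h1
    rw [Int.natAbs_neg, Int.natAbs_natCast] at h2
    simp only [← pow_two] at h2
    simpa only [e] using h2
  · have h1 : (d : ℝ) * Real.pi = ((d : ℤ) : ℤ) * Real.exp 1 + p := by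
      push_cast
      linarith
    have h2 := general Real.pi (d : ℤ) p d (by omega) hd h1
    rw [Int.natAbs_natCast] at h2
    simp only [← pow_two] at h2
    simpa only [e] using h2

end Pool.Agent.Results.MP_363d4d_nt.QuantizedOrder
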