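import Pool.Agent.Helper84.PE.Sharp

/-!
# MP_363d4d_nt: a zero-one law which separates the rational combinations of `1` and `e` from all other reals

`Q n` = `1, 1, 7, 71, 1001, …` are the denominators of Hermite's approximations to `e`; `g n` is a sequence of
multipliers, for example `n!` or the least common multiple of `1, …, n`; `N n = g n * Q n`; `sd x` is the signed
distance of `x` to the nearest integer. For a sequence `J n` of natural numbers and a real number `α` look at the
multiples `j * N n * α`, `1 ≤ j ≤ J n`, modulo one; `Small g J α` says that they converge to `0`, uniformly in `j`.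

* Let `J n * N n / N (n + 1) → ∞` and `J n ≤ 3 ^ n`, for example `J n = n ^ 3`. If `α = x e + y` with rational
  `x`, `y`, then `α` is small. If `α` is not of this form, then it is not small, and along a subsequence the multiples
  are even equidistributed modulo one. Hence if `π` is not small then both `π + e` and `π - e` are irrational.
* The threshold is exact: if `J n * N n / N (n + 1) → 0`, then uncountably many real numbers are small.

Nothing is settled here.
-/

open Filter Topology
open Pool.Agent.Helper65.PE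
open Pool.Agent.Helper84.PE

namespace Pool.Agent.Results.MP_363d4d_nt.ZeroOneLaw

theorem result (g : ℕ → ℕ) (hg : Mult g) (J : ℕ → ℕ) :
    (Tendsto (fun n : ℕ => (J n : ℝ) * (g n * Q n) / (g (n + 1) * Q (n + 1))) atTop atTop →
      (∀ᶠ n : ℕ in atTop, J n ≤ 3 ^ n) →
        (∀ α : ℝ, (Small g J α ↔ ∃ x y : ℚ, α = x * Real.exp 1 + y) ∧
          (¬ Small g J α → ∃ φ : ℕ → ℕ, StrictMono φ ∧
            ∀ f : ℝ → ℝ, Continuous f → Function.Periodic f 1 →
              Tendsto (fun i => (∑ j ∈ Finset.Icc 1 (J (φ i)), f (j * (g (φ i) * Q (φ i) * α))) / (J (φ i) : ℝ))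
                atTop (𝓝 (∫ t in (0 : ℝ)..1, f t)))) ∧
        (¬ Small g J Real.pi → Irrational (Real.pi + Real.exp 1) ∧ Irrational (Real.pi - Real.exp 1))) ∧
    (Tendsto (fun n : ℕ => (J n : ℝ) * (g n * Q n) / (g (n + 1) * Q (n + 1))) atTop (𝓝 0) →
      ¬ {α : ℝ | Small g J α}.Countable) := by
  refine ⟨fun hJ hJ' => ?_, fun hJ => not_countable_small hg hJ⟩
  have small : ∀ α : ℝ, (∃ x y : ℚ, α = x * Real.exp 1 + y) → Small g J α := by
    rintro α ⟨x, y, h⟩ ε hε
    filter_upwards [small_of_rat hg h hε, hJ'] with n h1 h2 j _ hj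
    exact h1 j (hj.trans h2)
  refine ⟨fun α => ⟨⟨fun hs => ?_, small α⟩, fun hs => ?_⟩, fun hs => ⟨?_, ?_⟩⟩
  · by_contra hc
    exact not_small hg hc hJ hs
  · obtain ⟨φ, hφ, hφ'⟩ := equidistributed hg (fun hc => hs (small α hc)) hJ
    refine ⟨φ, hφ, fun f hf hp => ?_⟩
    simpa only [sum_pt] using hφ' f hf hp
  · rintro ⟨q, hq⟩
    exact hs (small _ ⟨-1, q, by push_cast; linarith⟩)
  · rintro ⟨q, hq⟩
    exact hs (small _ ⟨1, q, by push_cast; linarith⟩)

end Pool.Agent.Results.MP_363d4d_nt.ZeroOneLaw
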